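import Pool.Agent.Helper98.CP.RDefs

/-!
Module OR-1 for MP_82cbb9_al: computability of words and of integral/rational combinations.
-/

set_option autoImplicit false

namespace Pool.Agent.CP

open Stage Pool.Agent.CQ

namespace OR1

section

variable {σ τ ρ : Type*}

/-- a left fold over two lists at the same time, extended by default values -/
def fold2 (step : ρ → σ → τ → ρ) (dσ : σ) (dτ : τ) (init : ρ) (l : List σ) (m : List τ)
    (n : ℕ) : ρ :=
  Nat.rec init (fun j ih => step ih (l.getD j dσ) (m.getD j dτ)) n

theorem fold2_succ (step : ρ → σ → τ → ρ) (dσ : σ) (dτ : τ) (init : ρ) (l : List σ) (m : List τ)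
    (n : ℕ) : fold2 step dσ dτ init l m (n + 1) =
      step (fold2 step dσ dτ init l m n) (l.getD n dσ) (m.getD n dτ) := rfl

theorem fold2_cons (step : ρ → σ → τ → ρ) (dσ : σ) (dτ : τ) (init : ρ) (x : σ) (y : τ)
    (l : List σ) (m : List τ) (n : ℕ) : fold2 step dσ dτ init (x :: l) (y :: m) (n + 1) =
      fold2 step dσ dτ (step init x y) l m n := by
  induction n with
  | zero => rfl
  | succ n ih =>
    rw [fold2_succ, ih, fold2_succ]
    simp

theorem fold2_nil (step : ρ → σ → τ → ρ) (dσ : σ) (dτ : τ) (hs : ∀ r x, step r x dτ = r)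
    (init : ρ) (l : List σ) (n : ℕ) : fold2 step dσ dτ init l [] n = init := by
  induction n with
  | zero => rfl
  | succ n ih => rw [fold2_succ, ih]; simp [hs]

variable [Primcodable σ] [Primcodable τ] [Primcodable ρ]

theorem c_getD {α : Type*} [Primcodable α] {f : α → List σ} {g : α → ℕ} (hf : Computable f)
    (hg : Computable g) (d : σ) : Computable (fun a => (f a).getD (g a) d) := by
  have h : Primrec₂ (fun (l : List σ) (n : ℕ) => l.getD n d) := Primrec.list_getD d
  exact h.to_comp.comp hf hg

theorem c_fold2 (step : ρ → σ → τ → ρ) (hstep : Computable (fun p : ρ × σ × τ =>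
    step p.1 p.2.1 p.2.2)) (dσ : σ) (dτ : τ) (init : ρ) :
    Computable₂ (fun (l : List σ) (m : List τ) => fold2 step dσ dτ init l m l.length) := by
  have h := Computable.nat_rec (α := List σ × List τ) (σ := ρ) (f := fun p => p.1.length)
    (g := fun _ => init)
    (h := fun p q => step q.2 (p.1.getD q.1 dσ) (p.2.getD q.1 dτ))
    (Computable.list_length.comp Computable.fst) (Computable.const init) (by
      show Computable (fun p : (List σ × List τ) × ℕ × ρ => step p.2.2 (p.1.1.getD p.2.1 dσ)
        (p.1.2.getD p.2.1 dτ))
      refine hstep.comp (f := fun r : ρ × σ × τ => step r.1 r.2.1 r.2.2)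
        (g := fun p : (List σ × List τ) × ℕ × ρ => (p.2.2, p.1.1.getD p.2.1 dσ,
          p.1.2.getD p.2.1 dτ)) ?_
      refine Computable.pair (Computable.snd.comp Computable.snd) (Computable.pair ?_ ?_)
      · exact c_getD (Computable.fst.comp Computable.fst)
          (Computable.fst.comp Computable.snd) dσ
      · exact c_getD (Computable.snd.comp Computable.fst)
          (Computable.fst.comp Computable.snd) dτ)
  exact h

end

theorem c_intNat : Computable (fun z : ℤ => z.toNat) := (pr_toNat Primrec.id).to_comp

theorem c_rep {k : ℕ} : Computable₂ (fun (w : Wd k) (n : ℕ) => (List.replicate n w).flatten) := by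
  have h := Computable.nat_rec (α := Wd k × ℕ) (σ := Wd k) (f := fun p => p.2)
    (g := fun _ => []) (h := fun p q => p.1 ++ q.2)
    Computable.snd (Computable.const []) (by
      show Computable (fun p : (Wd k × ℕ) × ℕ × Wd k => p.1.1 ++ p.2.2)
      exact Computable.list_append.comp (Computable.fst.comp Computable.fst)
        (Computable.snd.comp Computable.snd))
  refine Computable.of_eq h (fun p => ?_)
  rcases p with ⟨w, n⟩
  simp only
  induction n with
  | zero => rfl
  | succ n ih =>
    rw [List.replicate_succ, List.flatten_cons, ← ih]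

theorem wpow_eq {k : ℕ} (w : Wd k) (e : ℤ) : wpow w e =
    (List.replicate e.toNat w).flatten ++ (List.replicate (-e).toNat (winv w)).flatten := by
  rw [wpow]
  split_ifs with h
  · have : (-e).toNat = 0 := by omega
    rw [this]; simp
  · have : e.toNat = 0 := by omega
    rw [this]; simp

theorem wpow_zero {k : ℕ} (w : Wd k) : wpow w 0 = [] := by
  rw [wpow_eq]; simp

theorem gw_rep {k : ℕ} (w : Wd k) (n : ℕ) : gw (List.replicate n w).flatten = gw w ^ n := by
  induction n with
  | zero => simp [gw, FreeGroup.one_eq_mk]
  | succ n ih =>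
    rw [List.replicate_succ, List.flatten_cons, gw_append, ih, pow_succ']

end OR1

open OR1

theorem c_winv {k : ℕ} : Computable (winv : Wd k → Wd k) := by
  have h1 : Primrec (fun p : Fin k × Bool => (p.1, !p.2)) :=
    Primrec.fst.pair (Primrec.not.comp Primrec.snd)
  have h2 : Primrec (fun w : Wd k => w.map (fun p => (p.1, !p.2))) :=
    Primrec.list_map Primrec.id (h1.comp Primrec.snd).to₂
  exact ((Primrec.list_reverse.comp h2).to_comp).of_eq (fun w => rfl)

theorem c_wpow {k : ℕ} : Computable₂ (wpow : Wd k → ℤ → Wd k) := by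
  have h : Computable₂ (fun (w : Wd k) (e : ℤ) =>
      (List.replicate e.toNat w).flatten ++ (List.replicate (-e).toNat (winv w)).flatten) := by
    show Computable (fun p : Wd k × ℤ =>
      (List.replicate p.2.toNat p.1).flatten ++ (List.replicate (-p.2).toNat (winv p.1)).flatten)
    refine Computable.list_append.comp ?_ ?_
    · exact c_rep.comp Computable.fst (c_intNat.comp Computable.snd)
    · exact c_rep.comp (c_winv.comp Computable.fst)
        (c_intNat.comp ((pr_neg (α := ℤ) Primrec.id).to_comp.comp Computable.snd))
  exact Computable.of_eq h (fun p => (wpow_eq p.1 p.2).symm)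

theorem c_wpw {k : ℕ} : Computable₂ (wpw : List (Wd k) → List ℤ → Wd k) := by
  have h := c_fold2 (σ := Wd k) (τ := ℤ) (ρ := Wd k) (fun r w e => r ++ wpow w e) (by
    refine Computable.list_append.comp Computable.fst ?_
    exact c_wpow.comp (Computable.fst.comp Computable.snd) (Computable.snd.comp Computable.snd))
    [] 0 []
  refine Computable.of_eq h (fun p => ?_)
  have key : ∀ (b : List (Wd k)) (e : List ℤ) (init : Wd k),
      fold2 (fun r w e => r ++ wpow w e) [] 0 init b e b.length = init ++ wpw b e := by
    intro b
    induction b with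
    | nil => intro e init; simp [fold2, wpw]
    | cons x b ih =>
      intro e init
      cases e with
      | nil =>
        rw [fold2_nil _ _ _ (fun r x => by rw [wpow_zero, List.append_nil])]
        simp [wpw]
      | cons y e =>
        rw [List.length_cons, fold2_cons, ih, wpw, List.append_assoc]
  exact (key p.1 p.2 []).trans (List.nil_append _)

theorem gw_wpow {k : ℕ} (w : Wd k) (e : ℤ) : gw (wpow w e) = gw w ^ e := by
  rw [wpow_eq, gw_append, gw_rep, gw_rep, gw_winv]
  rcases le_total 0 e with h | h
  · have h1 : (-e).toNat = 0 := by omega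
    obtain ⟨n, rfl⟩ := Int.eq_ofNat_of_zero_le h
    rw [h1]; simp
  · have h1 : e.toNat = 0 := by omega
    obtain ⟨n, hn⟩ := Int.eq_ofNat_of_zero_le (show 0 ≤ -e by omega)
    have h2 : e = -(n : ℤ) := by omega
    rw [h1, hn, h2, zpow_neg, zpow_natCast, pow_zero, one_mul, Int.toNat_natCast, inv_pow]

theorem gw_wpw {k : ℕ} (b : List (Wd k)) (e : List ℤ) : gw (wpw b e) = pw (b.map gw) e := by
  induction b generalizing e with
  | nil => simp [wpw, pw, gw, FreeGroup.one_eq_mk]
  | cons x b ih =>
    cases e with
    | nil => simp [wpw, pw, gw, FreeGroup.one_eq_mk]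
    | cons y e => rw [wpw, List.map_cons, pw, gw_append, gw_wpow, ih]

/-- `lc` and `lq` are computable on lists of rational vectors -/
theorem c_lc {m : ℕ} : Computable₂ (fun (vs : List (Fin m → ℚ)) (e : List ℤ) => lc vs e) := by
  have h := c_fold2 (σ := Fin m → ℚ) (τ := ℤ) (ρ := Fin m → ℚ) (fun r v e => r + e • v) (by
    refine (c_vadd Computable.fst (c_vsmul (c := fun p : (Fin m → ℚ) × (Fin m → ℚ) × ℤ =>
      (p.2.2 : ℚ)) (f := fun p => p.2.1) (c_intCast (Computable.snd.comp Computable.snd))
        (Computable.fst.comp Computable.snd))).of_eq (fun p => ?_)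
    rw [Int.cast_smul_eq_zsmul]) 0 0 0
  refine Computable.of_eq h (fun p => ?_)
  have key : ∀ (b : List (Fin m → ℚ)) (e : List ℤ) (init : Fin m → ℚ),
      fold2 (fun r v e => r + e • v) 0 0 init b e b.length = init + lc b e := by
    intro b
    induction b with
    | nil => intro e init; simp [fold2, lc]
    | cons x b ih =>
      intro e init
      cases e with
      | nil =>
        rw [fold2_nil _ _ _ (fun r x => by rw [zero_smul, add_zero])]
        simp [lc]
      | cons y e =>
        rw [List.length_cons, fold2_cons, ih, lc, add_assoc]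
  exact (key p.1 p.2 0).trans (zero_add _)

theorem c_lq {m : ℕ} : Computable₂ (fun (vs : List (Fin m → ℚ)) (e : List ℚ) => lq vs e) := by
  have h := c_fold2 (σ := Fin m → ℚ) (τ := ℚ) (ρ := Fin m → ℚ) (fun r v e => r + e • v)
    (c_vadd Computable.fst (c_vsmul (c := fun p : (Fin m → ℚ) × (Fin m → ℚ) × ℚ =>
      p.2.2) (f := fun p => p.2.1) (Computable.snd.comp Computable.snd)
        (Computable.fst.comp Computable.snd))) 0 0 0
  refine Computable.of_eq h (fun p => ?_)
  have key : ∀ (b : List (Fin m → ℚ)) (e : List ℚ) (init : Fin m → ℚ),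
      fold2 (fun r v e => r + e • v) 0 0 init b e b.length = init + lq b e := by
    intro b
    induction b with
    | nil => intro e init; simp [fold2, lq]
    | cons x b ih =>
      intro e init
      cases e with
      | nil =>
        rw [fold2_nil _ _ _ (fun r x => by rw [zero_smul, add_zero])]
        simp [lq]
      | cons y e =>
        rw [List.length_cons, fold2_cons, ih, lq, add_assoc]
  exact (key p.1 p.2 0).trans (zero_add _)

end Pool.Agent.CP
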